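import Pool.Agent.W2helper21.FRO.Block
import Pool.Agent.W2helper21.ROT.Stable

/-!
# Functions of chains in the same order
-/

namespace Pool.Agent.W2helper21.FRO

open Matrix Pool.Agent.W2helper94.PIT
open Pool.Agent.W2helper21.ROG (lineU eval_lineU)
open Pool.Agent.W2helper21.ROT (minor minor_rows minor_col_zero field_lemma X_dvd_of_eval
  not_X_dvd)

variable {F : Type*} [Field F]

/-- number of modifications for the minors -/
def Nm (w T : ℕ) : ℕ := (T + 1) * N1 ((w * T) ^ T) (w * T) T.factorial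

/-- length from which functions of `T` aligned chains are rigid -/
def Lb (w T : ℕ) : ℕ := T + Nm w T + 1

section

variable {m τ : Type} [Fintype m] [DecidableEq m] [Fintype τ] [DecidableEq τ]

/-- the initial vector in the block `t` -/
def bv (Y : τ → m → F) (t : τ) : m × τ → F := fun q => if q.2 = t then Y t q.1 else 0

theorem bv_chain (D : τ → ℕ → F → Matrix m m F) (Y V : τ → m → F) (t : τ) (x : ℕ → F)
    (i j : ℕ) : bv Y t ⬝ᵥ (cp (blk D) x i j *ᵥ bv V t) = Y t ⬝ᵥ (cp (D t) x i j *ᵥ V t) := by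
  rw [cp_blk]
  have h1 : ∀ q : m × τ, (blockDiagonal (fun t => cp (D t) x i j) *ᵥ bv V t) q =
      if q.2 = t then (cp (D t) x i j *ᵥ V t) q.1 else 0 := by
    rintro ⟨a, s⟩
    simp only [Matrix.mulVec, dotProduct, blockDiagonal_apply, bv]
    rw [Fintype.sum_prod_type]
    by_cases hs : s = t
    · subst hs
      rw [if_pos rfl]
      refine Finset.sum_congr rfl fun c _ => ?_
      rw [Finset.sum_eq_single s]
      · simp
      · intro b _ hb
        simp [Ne.symm hb]
      · simp
    · rw [if_neg hs]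
      apply Finset.sum_eq_zero
      intro c _
      apply Finset.sum_eq_zero
      intro b _
      by_cases hb : s = b
      · subst hb
        simp [hs]
      · simp [hb]
  simp only [dotProduct, h1, bv]
  rw [Fintype.sum_prod_type]
  refine Finset.sum_congr rfl fun c _ => ?_
  rw [Finset.sum_eq_single t]
  · simp
  · intro b _ hb
    simp [hb]
  · simp

theorem tens_zero {μ : Type} [Fintype μ] [DecidableEq μ] {r : ℕ} (hr : 0 < r) :
    (tensRep F μ r).toFun 0 = 0 := by
  ext f g
  show ∏ i, (0 : Matrix μ μ F) (f i) (g i) = 0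
  exact Finset.prod_eq_zero (Finset.mem_univ ⟨0, hr⟩) rfl

/-- the minors of the Jacobian as functionals of a chain -/
theorem eval_minor [Infinite F] {D : τ → ℕ → F → Matrix m m F}
    {PB : ℕ → m × τ → m × τ → Polynomial F}
    (hPB : ∀ l s a b, (PB l a b).eval s = blk D l s a b) {L : ℕ} (Y V : τ → m → F)
    (f : τ → MvPolynomial ℕ F)
    (hf : ∀ t x, MvPolynomial.eval x (f t) = Y t ⬝ᵥ (cp (D t) x 0 L *ᵥ V t)) {r : ℕ}
    (row : Fin r → τ) (col : Fin r → ℕ) (hcol : ∀ b, col b < L) (ξ : ℕ → F) :
    MvPolynomial.eval ξ (minor f row col) =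
      ∑ π : Equiv.Perm (Fin r), (((Equiv.Perm.sign π : ℤ) : F) •
        tv (fun b => bv Y (row (π b)))) ⬝ᵥ
        (cp (fun l s => tensF fun b => derC (blk D) PB (col b) l s) ξ 0 L *ᵥ
          tv (fun b => bv V (row (π b)))) := by
  unfold minor
  rw [RingHom.map_det, Matrix.det_apply']
  refine Finset.sum_congr rfl fun π _ => ?_
  rw [smul_dotProduct, smul_eq_mul, ← prod_chains]
  congr 1
  refine Finset.prod_congr rfl fun b _ => ?_
  rw [RingHom.mapMatrix_apply, Matrix.map_apply, Matrix.of_apply]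
  apply pderiv_chain hPB (hcol b)
  intro x
  rw [bv_chain, hf]

theorem pderiv_zero [Infinite F] {D : ℕ → F → Matrix m m F} {L c : ℕ} (hc : L ≤ c)
    (Y V : m → F) (p : MvPolynomial ℕ F)
    (hp : ∀ x, MvPolynomial.eval x p = Y ⬝ᵥ (cp D x 0 L *ᵥ V)) : MvPolynomial.pderiv c p = 0 := by
  classical
  apply MvPolynomial.funext
  intro ξ
  have h1 : lineU c ξ p = Polynomial.C (MvPolynomial.eval ξ p) := by
    apply Polynomial.funext
    intro y
    rw [eval_lineU, Polynomial.eval_C, hp, hp, cp_congr]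
    intro l _ hl
    rw [Function.update_of_ne (by omega)]
  have h2 := lineU_deriv c ξ p
  rw [h1, Polynomial.derivative_C] at h2
  have h3 := congrArg (Polynomial.eval (ξ c)) h2
  rw [Polynomial.eval_zero, eval_lineU, Function.update_eq_self] at h3
  rw [← h3, map_zero]

theorem stable_minor [Infinite F] {D : τ → ℕ → F → Matrix m m F}
    (hM : ∀ t l, ∀ a b, ∃ p : Polynomial F, ∀ s, p.eval s = D t l s a b) {L : ℕ}
    (hL : Lb (Fintype.card m) (Fintype.card τ) ≤ L)
    (hrank : ∀ t i j, i < j → j ≤ L → ∀ x, (cp (D t) x i j).rank ≤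
      (cp (D t) (fun _ => 0) i j).rank) (Y V : τ → m → F)
    (f : τ → MvPolynomial ℕ F)
    (hf : ∀ t x, MvPolynomial.eval x (f t) = Y t ⬝ᵥ (cp (D t) x 0 L *ᵥ V t)) {r : ℕ}
    (row : Fin r → τ) (col : Fin r → ℕ) (hne : minor f row col ≠ 0) :
    ∃ i, i < L ∧ (∀ b, col b ≠ i) ∧ ¬ MvPolynomial.X i ∣ minor f row col := by
  classical
  have hL1 : 0 < L := by unfold Lb at hL; omega
  rcases Nat.eq_zero_or_pos r with hr | hr
  · subst hr
    refine ⟨0, hL1, fun b => b.elim0, ?_⟩
    have h1 : minor f row col = 1 := by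
      unfold minor
      rw [Matrix.det_fin_zero]
    rw [h1]
    intro h
    exact (MvPolynomial.X_prime (i := 0)).not_isUnit (isUnit_of_dvd_one h)
  have hrT : r ≤ Fintype.card τ := by
    have := Fintype.card_le_of_injective row (minor_rows _ _ _ hne)
    rwa [Fintype.card_fin] at this
  have hcol : ∀ b, col b < L := by
    intro b
    by_contra hb
    apply hne
    apply minor_col_zero f row col b
    intro t
    exact pderiv_zero (by omega) (Y t) (V t) (f t) (hf t)
  obtain ⟨ξs, hξs⟩ : ∃ ξ, MvPolynomial.eval ξ (minor f row col) ≠ 0 := by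
    by_contra hcon
    push Not at hcon
    exact hne (MvPolynomial.funext fun x => by rw [hcon x, map_zero])
  choose PB hPB using blk_poly hM
  have hPB' : ∀ l s a b, (PB l a b).eval s = blk D l s a b := fun l s a b => hPB l a b s
  let E : Finset ℕ := Finset.univ.image col
  have hE : E.card ≤ r := by
    refine Finset.card_image_le.trans ?_
    rw [Finset.card_univ, Fintype.card_fin]
  let X : ℕ → Matrix (Fin r → m × τ) (Fin r → m × τ) F := fun l =>
    tensF fun b => derC (blk D) PB (col b) l (ξs l)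
  have hcp : ∀ ξ : ℕ → F, (∀ l ∈ E, ξ l = ξs l) →
      cp (fun l s => tensF fun b => derC (blk D) PB (col b) l s) ξ 0 L =
        cp (exc (tensRep F (m × τ) r) (blk D) E X) ξ 0 L := by
    intro ξ hξ
    unfold cp
    congr 1
    apply List.map_congr_left
    intro l _
    unfold exc
    by_cases hl : l ∈ E
    · rw [if_pos hl, hξ l hl]
    · rw [if_neg hl]
      have : ∀ b, derC (blk D) PB (col b) l (ξ l) = blk D l (ξ l) := by
        intro b
        unfold derC
        rw [if_neg]
        rintro rfl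
        exact hl (Finset.mem_image_of_mem _ (Finset.mem_univ b))
      simp only [this]
      rfl
  rw [eval_minor hPB' Y V f hf row col hcol, hcp ξs (fun _ _ => rfl)] at hξs
  obtain ⟨x, hx, hxne⟩ := multi (blk_poly hM) (full_blk hrank) (tensRep F (m × τ) r)
    (tens_zero hr) X (fun π : Equiv.Perm (Fin r) => ((Equiv.Perm.sign π : ℤ) : F) •
        tv (fun b => bv Y (row (π b)))) r L le_rfl E hE
    (fun π => tv (fun b => bv V (row (π b)))) ξs hξs
  -- the point
  let ξ' : ℕ → F := fun l => if l ∈ E then ξs l else x l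
  have hcp' : cp (exc (tensRep F (m × τ) r) (blk D) E X) ξ' 0 L =
      cp (exc (tensRep F (m × τ) r) (blk D) E X) x 0 L := by
    unfold cp
    congr 1
    apply List.map_congr_left
    intro l _
    unfold exc
    by_cases hl : l ∈ E
    · rw [if_pos hl, if_pos hl]
    · rw [if_neg hl, if_neg hl]
      simp only [ξ', if_neg hl]
  have hne' : MvPolynomial.eval ξ' (minor f row col) ≠ 0 := by
    rw [eval_minor hPB' Y V f hf row col hcol, hcp ξ' (fun l hl => by simp only [ξ', if_pos hl]),
      hcp']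
    exact hxne
  obtain ⟨S, hS, hSx⟩ := hx
  have hcard : (E ∪ S).card < (Finset.range L).card := by
    rw [Finset.card_range]
    refine lt_of_le_of_lt (Finset.card_union_le _ _) ?_
    have h1 : (r + 1) * N1 (Fintype.card (Fin r → m × τ)) (Fintype.card (m × τ))
        (Fintype.card (Equiv.Perm (Fin r))) ≤ Nm (Fintype.card m) (Fintype.card τ) := by
      unfold Nm
      rw [Fintype.card_fun, Fintype.card_prod, Fintype.card_perm, Fintype.card_fin]
      apply Nat.mul_le_mul (by omega)
      unfold N1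
      apply Nat.mul_le_mul_right
      apply Nat.pow_le_pow_left
      apply Nat.add_le_add_right
      apply Nat.mul_le_mul
      · rcases Nat.eq_zero_or_pos (Fintype.card m * Fintype.card τ) with h0 | h0
        · rw [h0, Nat.zero_pow hr]
          exact Nat.zero_le _
        · exact Nat.pow_le_pow_right h0 hrT
      · exact Nat.factorial_le hrT
    unfold Lb at hL
    omega
  obtain ⟨i, hiL, hi⟩ := Finset.exists_mem_notMem_of_card_lt_card hcard
  rw [Finset.mem_union, not_or] at hi
  refine ⟨i, Finset.mem_range.mp hiL, fun b hb => hi.1 (by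
    rw [← hb]; exact Finset.mem_image_of_mem _ (Finset.mem_univ b)), fun hdvd => hne' ?_⟩
  obtain ⟨Q, hQ⟩ := hdvd
  rw [hQ, map_mul, MvPolynomial.eval_X]
  have : ξ' i = 0 := by
    simp only [ξ', if_neg hi.1]
    exact hSx i hi.2
  rw [this, zero_mul]

/-- **Functions of aligned chains**: a function of `card τ` chains of length at least `Lb` which
vanishes whenever one of the coordinates is zero is zero. -/
theorem aligned [CharZero F] {D : τ → ℕ → F → Matrix m m F}
    (hM : ∀ t l, ∀ a b, ∃ p : Polynomial F, ∀ s, p.eval s = D t l s a b) {L : ℕ}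
    (hL : Lb (Fintype.card m) (Fintype.card τ) ≤ L)
    (hrank : ∀ t i j, i < j → j ≤ L → ∀ x, (cp (D t) x i j).rank ≤
      (cp (D t) (fun _ => 0) i j).rank) (Y V : τ → m → F) (Ψ : MvPolynomial τ F)
    (hvan : ∀ i < L, ∀ x : ℕ → F, x i = 0 →
      MvPolynomial.eval (fun t => Y t ⬝ᵥ (cp (D t) x 0 L *ᵥ V t)) Ψ = 0) (x : ℕ → F) :
    MvPolynomial.eval (fun t => Y t ⬝ᵥ (cp (D t) x 0 L *ᵥ V t)) Ψ = 0 := by
  classical
  have hPF : ∀ t, IsPF (fun x : ℕ → F => Y t ⬝ᵥ (cp (D t) x 0 L *ᵥ V t)) := fun t =>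
    MPF.dot (cp_MPF (g := fun x => x) (hM t) (fun l => IsPF.coord l) 0 L) (Y t) (V t)
  choose f hf using hPF
  have heval : ∀ x, MvPolynomial.eval (fun t => Y t ⬝ᵥ (cp (D t) x 0 L *ᵥ V t)) Ψ =
      MvPolynomial.eval x (MvPolynomial.bind₁ f Ψ) := by
    intro x
    rw [Pool.Agent.W2helper21.ROT.eval_bind]
    congr 2
    funext t
    rw [hf]
  -- the rank of the Jacobian
  have hex : ∃ s, ∀ (row : Fin s → τ) (col : Fin s → ℕ), minor f row col = 0 := by
    refine ⟨Fintype.card τ + 1, fun row col => ?_⟩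
    by_contra h
    have h1 := Fintype.card_le_of_injective row (minor_rows _ _ _ h)
    rw [Fintype.card_fin] at h1
    omega
  have hs0 : Nat.find hex ≠ 0 := by
    intro h0
    have h1 := Nat.find_spec hex
    have h2 : minor f (Fin.elim0 : Fin 0 → τ) (Fin.elim0 : Fin 0 → ℕ) = 1 := by
      unfold minor
      rw [Matrix.det_fin_zero]
    rw [h0] at h1
    rw [h1] at h2
    exact zero_ne_one h2
  obtain ⟨r, hr⟩ := Nat.exists_eq_succ_of_ne_zero hs0
  have hnot := Nat.find_min hex (m := r) (by omega)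
  push Not at hnot
  obtain ⟨row, col, hne⟩ := hnot
  have hmin : ∀ (row' : Fin (r + 1) → τ) (col' : Fin (r + 1) → ℕ), minor f row' col' = 0 := by
    have h1 := Nat.find_spec hex
    rw [hr] at h1
    exact h1
  obtain ⟨i, hiL, hci, hndvd⟩ := stable_minor hM hL hrank Y V f (fun t x => hf t x) row col hne
  have hQ : MvPolynomial.X i ∣ MvPolynomial.bind₁ f Ψ := by
    apply X_dvd_of_eval
    intro x hx
    rw [← heval]
    exact hvan i hiL x hx
  rw [heval, field_lemma f i row col hci hmin hndvd Ψ hQ, map_zero]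

end

end Pool.Agent.W2helper21.FRO
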