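import Pool.Agent.W2helper21.FRO.Seg
import Pool.Agent.W2helper21.ROG.Coeff

/-!
# Block diagonal chains, tensor products of chains, derivatives of chains
-/

namespace Pool.Agent.W2helper21.FRO

open Matrix Pool.Agent.W2helper94.PIT
open Pool.Agent.W2helper21.ROG (lineU eval_lineU)

variable {F : Type*} [Field F]

section Rank

variable {m τ : Type} [Fintype m] [DecidableEq m] [Fintype τ] [DecidableEq τ]

theorem rank_factor (A : Matrix m m F) : ∃ (U : Matrix m (Fin A.rank) F)
    (V : Matrix (Fin A.rank) m F), A = U * V := by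
  have h : Module.finrank F (LinearMap.range A.mulVecLin) = Module.finrank F (Fin A.rank → F) := by
    rw [Module.finrank_fintype_fun_eq_card, Fintype.card_fin]
    rfl
  let e := LinearEquiv.ofFinrankEq (LinearMap.range A.mulVecLin) (Fin A.rank → F) h
  refine ⟨LinearMap.toMatrix' ((LinearMap.range A.mulVecLin).subtype ∘ₗ e.symm.toLinearMap),
    LinearMap.toMatrix' (e.toLinearMap ∘ₗ A.mulVecLin.rangeRestrict), ?_⟩
  rw [← LinearMap.toMatrix'_comp]
  have : ((LinearMap.range A.mulVecLin).subtype ∘ₗ e.symm.toLinearMap) ∘ₗ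
      (e.toLinearMap ∘ₗ A.mulVecLin.rangeRestrict) = A.mulVecLin := by
    ext v i
    simp
  rw [this, ← Matrix.toLin'_apply', LinearMap.toMatrix'_toLin']

theorem factor_of_rank_le {A B : Matrix m m F} (h : A.rank ≤ B.rank) :
    ∃ X Y : Matrix m m F, A = X * B * Y := by
  obtain ⟨U, V, hUV⟩ := rank_factor A
  obtain ⟨P, Q, hPQ⟩ := exists_det_ne_zero h
  have hu : IsUnit (P * B * Q).det := hPQ.isUnit
  refine ⟨U * P, Q * (P * B * Q)⁻¹ * V, ?_⟩
  have h1 : U * P * B * (Q * (P * B * Q)⁻¹ * V) = U * ((P * B * Q) * (P * B * Q)⁻¹) * V := by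
    simp only [Matrix.mul_assoc]
  rw [h1, Matrix.mul_nonsing_inv _ hu, Matrix.mul_one]
  exact hUV

theorem rank_block_le {A B : τ → Matrix m m F} (h : ∀ t, (A t).rank ≤ (B t).rank) :
    (blockDiagonal A).rank ≤ (blockDiagonal B).rank := by
  choose X Y hXY using fun t => factor_of_rank_le (h t)
  have : blockDiagonal A = blockDiagonal X * blockDiagonal B * blockDiagonal Y := by
    rw [← blockDiagonal_mul, ← blockDiagonal_mul]
    congr 1
    funext t
    exact hXY t
  rw [this]
  exact (Matrix.rank_mul_le_left _ _).trans (Matrix.rank_mul_le_right _ _)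

/-- the block diagonal chain -/
def blk (D : τ → ℕ → F → Matrix m m F) : ℕ → F → Matrix (m × τ) (m × τ) F :=
  fun l s => blockDiagonal fun t => D t l s

theorem cp_blk (D : τ → ℕ → F → Matrix m m F) (x : ℕ → F) (i j : ℕ) :
    cp (blk D) x i j = blockDiagonal fun t => cp (D t) x i j := by
  unfold cp
  induction List.Ico i j with
  | nil =>
    simp only [List.map_nil, List.prod_nil]
    exact blockDiagonal_one.symm
  | cons l L ih =>
    simp only [List.map_cons, List.prod_cons, ih]
    unfold blk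
    exact (blockDiagonal_mul _ _).symm

theorem blk_poly {D : τ → ℕ → F → Matrix m m F}
    (hM : ∀ t l, ∀ a b, ∃ p : Polynomial F, ∀ s, p.eval s = D t l s a b) :
    ∀ l, ∀ a b, ∃ p : Polynomial F, ∀ s, p.eval s = blk D l s a b := by
  intro l a b
  unfold blk
  simp only [blockDiagonal_apply]
  split_ifs
  · exact hM _ _ _ _
  · exact ⟨0, fun s => by simp⟩

theorem full_blk {D : τ → ℕ → F → Matrix m m F} {L : ℕ} {a : ℕ → F}
    (h : ∀ t i j, i < j → j ≤ L → ∀ x, (cp (D t) x i j).rank ≤ (cp (D t) a i j).rank) :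
    Full (blk D) L a := by
  intro ρ _ i j hij hj _ ⟨x, hx⟩
  refine hx.trans ?_
  rw [cp_blk, cp_blk]
  exact rank_block_le fun t => h t i j hij hj x

end Rank

section Tensor

variable {r : ℕ} {μ : Type} [Fintype μ] [DecidableEq μ]

/-- tensor product of matrices -/
def tensF {μ ν : Type} (A : Fin r → Matrix μ ν F) : Matrix (Fin r → μ) (Fin r → ν) F :=
  Matrix.of fun f g => ∏ i, A i (f i) (g i)

theorem tensF_mul (A B : Fin r → Matrix μ μ F) :
    tensF (fun b => A b * B b) = tensF A * tensF B := by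
  ext f g
  simp only [tensF, Matrix.of_apply, Matrix.mul_apply]
  rw [Finset.prod_univ_sum]
  simp only [Fintype.piFinset_univ, Finset.prod_mul_distrib]

theorem tensF_one : tensF (fun _ : Fin r => (1 : Matrix μ μ F)) = 1 := tens_one r

/-- pure tensors -/
def tv (Y : Fin r → μ → F) : (Fin r → μ) → F := fun f => ∏ b, Y b (f b)

theorem tensF_mulVec (A : Fin r → Matrix μ μ F) (V : Fin r → μ → F) :
    tensF A *ᵥ tv V = tv fun b => A b *ᵥ V b := by
  funext f
  simp only [tensF, tv, Matrix.mulVec, dotProduct, Matrix.of_apply]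
  rw [Finset.prod_univ_sum]
  simp only [Fintype.piFinset_univ, Finset.prod_mul_distrib]

theorem tv_dot (Y V : Fin r → μ → F) : tv Y ⬝ᵥ tv V = ∏ b, Y b ⬝ᵥ V b := by
  simp only [tv, dotProduct]
  rw [Finset.prod_univ_sum]
  simp only [Fintype.piFinset_univ, Finset.prod_mul_distrib]

theorem cp_tensF (C : Fin r → ℕ → F → Matrix μ μ F) (x : ℕ → F) (i j : ℕ) :
    cp (fun l s => tensF fun b => C b l s) x i j = tensF fun b => cp (C b) x i j := by
  unfold cp
  induction List.Ico i j with
  | nil =>
    simp only [List.map_nil, List.prod_nil]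
    exact tensF_one.symm
  | cons l L ih =>
    simp only [List.map_cons, List.prod_cons, ih]
    exact (tensF_mul _ _).symm

theorem prod_chains (C : Fin r → ℕ → F → Matrix μ μ F) (Y V : Fin r → μ → F) (x : ℕ → F)
    (i j : ℕ) : ∏ b, Y b ⬝ᵥ (cp (C b) x i j *ᵥ V b) =
    tv Y ⬝ᵥ (cp (fun l s => tensF fun b => C b l s) x i j *ᵥ tv V) := by
  rw [cp_tensF, tensF_mulVec, tv_dot]

end Tensor

section Derivative

variable {σ : Type*} [DecidableEq σ]

theorem lineU_deriv (m : σ) (z : σ → F) (Ψ : MvPolynomial σ F) :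
    Polynomial.derivative (lineU m z Ψ) = lineU m z (MvPolynomial.pderiv m Ψ) := by
  unfold lineU
  induction Ψ using MvPolynomial.induction_on with
  | C a => simp
  | add p q hp hq => simp only [map_add, hp, hq]
  | mul_X p i hp =>
    rw [map_mul, Polynomial.derivative_mul, hp, Derivation.leibniz, map_add, smul_eq_mul,
      smul_eq_mul, map_mul, map_mul, MvPolynomial.aeval_X]
    by_cases hi : i = m
    · subst hi
      rw [Function.update_self, Polynomial.derivative_X, MvPolynomial.pderiv_X_self, map_one]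
      ring
    · rw [Function.update_of_ne hi, Polynomial.derivative_C, MvPolynomial.pderiv_X_of_ne hi,
        map_zero]
      ring

variable {μ : Type} [Fintype μ] [DecidableEq μ]

/-- the chain with the derivative at the position `c` -/
noncomputable def derC (C : ℕ → F → Matrix μ μ F) (P : ℕ → μ → μ → Polynomial F) (c : ℕ) :
    ℕ → F → Matrix μ μ F :=
  fun l s => if l = c then Matrix.of fun a b => (Polynomial.derivative (P l a b)).eval s else C l s

theorem pderiv_chain [Infinite F] {C : ℕ → F → Matrix μ μ F} {P : ℕ → μ → μ → Polynomial F}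
    (hP : ∀ l s a b, (P l a b).eval s = C l s a b) {L c : ℕ} (hc : c < L) (Y V : μ → F)
    (p : MvPolynomial ℕ F) (hp : ∀ x, MvPolynomial.eval x p = Y ⬝ᵥ (cp C x 0 L *ᵥ V))
    (ξ : ℕ → F) : MvPolynomial.eval ξ (MvPolynomial.pderiv c p) =
      Y ⬝ᵥ (cp (derC C P c) ξ 0 L *ᵥ V) := by
  classical
  set α := Y ᵥ* cp C ξ 0 c with hα
  set β := cp C ξ (c + 1) L *ᵥ V with hβ
  have hsplit : ∀ (C' : ℕ → F → Matrix μ μ F) (x : ℕ → F),
      Y ⬝ᵥ (cp C' x 0 L *ᵥ V) = (Y ᵥ* cp C' x 0 c) ⬝ᵥ (C' c (x c) *ᵥ (cp C' x (c + 1) L *ᵥ V)) := by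
    intro C' x
    have h1 : cp C' x c (c + 1) = C' c (x c) := by
      unfold cp
      simp
    rw [← cp_mul x (Nat.zero_le c) hc.le, ← cp_mul x (Nat.le_succ c) (by omega : c + 1 ≤ L),
      Nat.succ_eq_add_one, h1, ← Matrix.mulVec_mulVec, ← Matrix.mulVec_mulVec,
      Matrix.dotProduct_mulVec]
  let q : Polynomial F := ∑ a, ∑ b, Polynomial.C (α a) * (P c a b * Polynomial.C (β b))
  have hq : lineU c ξ p = q := by
    apply Polynomial.funext
    intro y
    rw [eval_lineU, hp, hsplit]
    rw [cp_congr (x := Function.update ξ c y) (x' := ξ) (i := 0) (j := c)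
        (fun l _ hl => by rw [Function.update_of_ne (by omega)]),
      cp_congr (x := Function.update ξ c y) (x' := ξ) (i := c + 1) (j := L)
        (fun l hl _ => by rw [Function.update_of_ne (by omega)]), Function.update_self,
      ← hα, ← hβ]
    simp only [q, dotProduct, Matrix.mulVec, Polynomial.eval_finsetSum, Polynomial.eval_mul,
      Polynomial.eval_C, hP, Finset.mul_sum]
  have h1 : MvPolynomial.eval ξ (MvPolynomial.pderiv c p) =
      (Polynomial.derivative q).eval (ξ c) := by
    rw [← hq, lineU_deriv, eval_lineU, Function.update_eq_self]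
  have hder : ∀ i j, (∀ l, i ≤ l → l < j → l ≠ c) → cp (derC C P c) ξ i j = cp C ξ i j := by
    intro i j h
    unfold cp
    congr 1
    apply List.map_congr_left
    intro l hl
    rw [List.Ico.mem] at hl
    unfold derC
    rw [if_neg (h l hl.1 hl.2)]
  rw [h1, hsplit, hder 0 c (fun l _ h => by omega), hder (c + 1) L (fun l h _ => by omega),
    ← hα, ← hβ]
  simp only [q, derC, if_true, dotProduct, Matrix.mulVec, Matrix.of_apply,
    Polynomial.derivative_sum, Polynomial.derivative_mul, Polynomial.derivative_C,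
    Polynomial.eval_finsetSum, Polynomial.eval_mul, Polynomial.eval_add, Polynomial.eval_C,
    Polynomial.eval_zero, Finset.mul_sum]
  refine Finset.sum_congr rfl fun a _ => Finset.sum_congr rfl fun b _ => ?_
  ring

end Derivative

end Pool.Agent.W2helper21.FRO
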