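import Pool.Agent.W2helper21.FRO.Rigid
import Pool.Agent.W2helper21.ROT.Trdeg

/-!
# Polynomials computed by read-once oblivious branching programs

The definitions and the translation to chains of matrices follow the hand-in
ConstantWidthROABPSums of helper94.
-/

namespace Pool.Agent.W2helper21.FRO

open MvPolynomial Pool.Agent.W2helper94.PIT
open Pool.Agent.W2helper21.ROT (trdeg_reduce')

/-- `p` is computed by a read-once oblivious algebraic branching program of width `w`, reading the
variables in some order `σ`. -/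
def ComputedByROABP {K : Type*} [Field K] {n : ℕ} (w : ℕ) (p : MvPolynomial (Fin n) K) : Prop :=
  ∃ (σ : Equiv.Perm (Fin n)) (M : Fin n → Matrix (Fin w) (Fin w) (Polynomial K))
    (u v : Fin w → K),
    p = ∑ a, ∑ b, C (u a) * (List.ofFn fun l : Fin n =>
      (M l).map (Polynomial.aeval (X (σ l) : MvPolynomial (Fin n) K))).prod a b * C (v b)

/-- At most `T` of the polynomials `p_i` are algebraically independent. -/
def TrdegLE {K : Type*} [Field K] {n s : ℕ} (T : ℕ) (p : Fin s → MvPolynomial (Fin n) K) : Prop :=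
  ∀ I : Finset (Fin s), AlgebraicIndependent K (fun i : I => p i) → I.card ≤ T

section Proof

variable {K : Type*} [Field K]

/-- extending a permutation of `Fin n` to `ℕ` -/
noncomputable def extP {n : ℕ} (σ : Equiv.Perm (Fin n)) : Equiv.Perm ℕ :=
  σ.extendDomain (Fin.equivSubtype : Fin n ≃ {i // i < n})

theorem extP_apply {n : ℕ} (σ : Equiv.Perm (Fin n)) (l : Fin n) : extP σ l = (σ l : ℕ) :=
  Equiv.Perm.extendDomain_apply_image σ (Fin.equivSubtype : Fin n ≃ {i // i < n}) l

theorem extP_symm_lt {n : ℕ} (σ : Equiv.Perm (Fin n)) (v : ℕ) :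
    (extP σ).symm v < n ↔ v < n := by
  have key : ∀ l : ℕ, l < n ↔ extP σ l < n := by
    intro l
    by_cases h : l < n
    · have := extP_apply σ ⟨l, h⟩
      simp only at this
      rw [this]
      exact ⟨fun _ => (σ ⟨l, h⟩).2, fun _ => h⟩
    · have : extP σ l = l := Equiv.Perm.extendDomain_apply_not_subtype σ _ h
      rw [this]
  rw [key]
  simp

/-- extending a sequence of matrices -/
noncomputable def extM {n w : ℕ} (M : Fin n → Matrix (Fin w) (Fin w) (Polynomial K)) (l : ℕ)
    (t : K) : Matrix (Fin w) (Fin w) K :=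
  if h : l < n then (M ⟨l, h⟩).map (Polynomial.eval t) else 1

theorem extM_poly {n w : ℕ} (M : Fin n → Matrix (Fin w) (Fin w) (Polynomial K)) :
    ∀ l, ∀ a b, ∃ p : Polynomial K, ∀ t, p.eval t = extM M l t a b := by
  intro l a b
  unfold extM
  split_ifs with h
  · exact ⟨M ⟨l, h⟩ a b, fun t => by simp⟩
  · exact ⟨Polynomial.C ((1 : Matrix (Fin w) (Fin w) K) a b), fun t => by simp⟩

theorem ofFn_eq {n w : ℕ} (M : Fin n → Matrix (Fin w) (Fin w) (Polynomial K)) (x : ℕ → K) :
    (List.ofFn fun l : Fin n => (M l).map (Polynomial.eval (x l))).prod =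
      cp (extM M) x 0 n := by
  unfold cp
  congr 1
  rw [List.Ico.zero_bot]
  apply List.ext_getElem
  · simp
  · intro l h1 h2
    have hl : l < n := by simpa using h1
    simp [extM, hl]

theorem eval_roabp {n w : ℕ} (σ : Equiv.Perm (Fin n))
    (M : Fin n → Matrix (Fin w) (Fin w) (Polynomial K)) (u v : Fin w → K) (x : Fin n → K)
    (x' : ℕ → K) (hx : ∀ l : Fin n, x' l = x (σ l)) :
    eval x (∑ a, ∑ b, C (u a) * (List.ofFn fun l : Fin n =>
      (M l).map (Polynomial.aeval (X (σ l) : MvPolynomial (Fin n) K))).prod a b * C (v b)) =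
    dotProduct u (Matrix.mulVec (cp (extM M) x' 0 n) v) := by
  have h1 : ((List.ofFn fun l : Fin n =>
      (M l).map (Polynomial.aeval (X (σ l) : MvPolynomial (Fin n) K))).prod).map (eval x) =
      cp (extM M) x' 0 n := by
    rw [← ofFn_eq]
    have h2 := map_list_prod (RingHom.mapMatrix (m := Fin w) (eval x)) (List.ofFn fun l : Fin n =>
      (M l).map (Polynomial.aeval (X (σ l) : MvPolynomial (Fin n) K)))
    rw [RingHom.mapMatrix_apply] at h2
    rw [h2, List.map_ofFn]
    congr 2
    funext l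
    ext a b
    simp only [Function.comp_apply, RingHom.mapMatrix_apply, Matrix.map_apply]
    rw [hx]
    have h3 := Polynomial.hom_eval₂ (M l a b) (algebraMap K (MvPolynomial (Fin n) K))
      (MvPolynomial.eval x) (X (σ l))
    rw [Polynomial.aeval_def, h3, MvPolynomial.eval_X]
    have h4 : (MvPolynomial.eval x).comp (algebraMap K (MvPolynomial (Fin n) K)) =
        RingHom.id K := by
      ext c
      simp
    rw [h4]
    rfl
  rw [← h1]
  simp only [map_sum, map_mul, eval_C, dotProduct, Matrix.mulVec, Matrix.map_apply,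
    Finset.mul_sum, mul_assoc]

/-- the polynomial form of the generator -/
noncomputable def genPoly (K : Type*) [Field K] (n q : ℕ) (i : Fin n) :
    MvPolynomial (Fin q ⊕ Fin q) K :=
  ∑ c, X (Sum.inl c) * ∏ j ∈ Finset.univ.erase i, (X (Sum.inr c) - C (((j : Fin n) : ℕ) : K))

theorem genPoly_degree (n q : ℕ) (i : Fin n) : (genPoly K n q i).totalDegree ≤ n := by
  unfold genPoly
  apply totalDegree_finsetSum_le
  intro c _
  refine (totalDegree_mul _ _).trans ?_
  have h1 : (X (Sum.inl c) : MvPolynomial (Fin q ⊕ Fin q) K).totalDegree ≤ 1 :=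
    (totalDegree_X _).le
  have h2 : (∏ j ∈ Finset.univ.erase i,
      (X (Sum.inr c) - C (((j : Fin n) : ℕ) : K)) : MvPolynomial (Fin q ⊕ Fin q) K).totalDegree
      ≤ n - 1 := by
    refine (totalDegree_finsetProd _ _).trans ?_
    have : ∀ j ∈ Finset.univ.erase i,
        (X (Sum.inr c) - C (((j : Fin n) : ℕ) : K) : MvPolynomial (Fin q ⊕ Fin q) K).totalDegree
          ≤ 1 := by
      intro j _
      refine (totalDegree_sub _ _).trans ?_
      rw [totalDegree_X, totalDegree_C]
      simp
    refine (Finset.sum_le_card_nsmul _ _ _ this).trans (le_of_eq ?_)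
    rw [Finset.card_erase_of_mem (Finset.mem_univ i), Finset.card_univ, Fintype.card_fin]
    simp
  have := i.pos
  omega

theorem totalDegree_bind {n : ℕ} {τ : Type*} (g : Fin n → MvPolynomial τ K) (B : ℕ)
    (hg : ∀ i, (g i).totalDegree ≤ B) (p : MvPolynomial (Fin n) K) :
    (bind₁ g p).totalDegree ≤ B * p.totalDegree := by
  classical
  have h1 : bind₁ g p = ∑ d ∈ p.support, C (coeff d p) * ∏ i ∈ d.support, g i ^ d i := by
    conv_lhs => rw [p.as_sum]
    rw [map_sum]
    refine Finset.sum_congr rfl fun d _ => ?_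
    rw [bind₁_monomial]
  rw [h1]
  apply totalDegree_finsetSum_le
  intro d hd
  refine (totalDegree_mul _ _).trans ?_
  rw [totalDegree_C, zero_add]
  refine (totalDegree_finsetProd _ _).trans ?_
  have h2 : ∀ i ∈ d.support, (g i ^ d i).totalDegree ≤ B * d i := by
    intro i _
    refine (totalDegree_pow _ _).trans ?_
    rw [mul_comm]
    exact Nat.mul_le_mul_right _ (hg i)
  refine (Finset.sum_le_sum h2).trans ?_
  rw [← Finset.mul_sum]
  apply Nat.mul_le_mul_left
  exact le_totalDegree hd

theorem eval_genPoly {n q : ℕ} (p : MvPolynomial (Fin n) K) (s : Fin q ⊕ Fin q → K) :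
    eval s (bind₁ (genPoly K n q) p) =
      eval (fun i => ∑ c, s (Sum.inl c) * ∏ j ∈ Finset.univ.erase i,
        (s (Sum.inr c) - (((j : Fin n) : ℕ) : K))) p := by
  have h1 : eval s (bind₁ (genPoly K n q) p) = eval (fun i => eval s (genPoly K n q i)) p := by
    simp only [← coe_aeval_eq_eval, RingHom.coe_coe]
    rw [← AlgHom.comp_apply]
    congr 1
    ext i
    simp
  rw [h1]
  congr 2
  funext i
  simp [genPoly, map_sum, map_prod]

theorem prod_erase_eq {n : ℕ} (i : Fin n) (t : K) :
    ∏ j ∈ (Finset.univ : Finset (Fin n)).erase i, (t - (((j : Fin n) : ℕ) : K)) =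
      ∏ j ∈ (Finset.range n).erase (i : ℕ), (t - (j : K)) := by
  apply Finset.prod_bij (fun (j : Fin n) _ => (j : ℕ))
  · intro j hj
    rw [Finset.mem_erase] at hj ⊢
    exact ⟨fun h => hj.1 (Fin.ext h), Finset.mem_range.mpr j.2⟩
  · intro j _ j' _ h
    exact Fin.ext h
  · intro j hj
    rw [Finset.mem_erase, Finset.mem_range] at hj
    refine ⟨⟨j, hj.2⟩, ?_, rfl⟩
    rw [Finset.mem_erase]
    exact ⟨fun h => hj.1 (by rw [← h]), Finset.mem_univ _⟩
  · intro j _
    rfl

theorem numSeeds_bounds {w : ℕ} (hw : 1 ≤ w) :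
    ∀ t ≤ w, ∀ ρ ≤ w, (Fintype.card (Fin ρ → Fin w) + 1) ^ t * 2 ≤ (w ^ w + 1) ^ w * 2 := by
  intro t ht ρ hρ
  apply Nat.mul_le_mul_right
  rw [Fintype.card_fun, Fintype.card_fin, Fintype.card_fin]
  have h1 : w ^ ρ ≤ w ^ w := Nat.pow_le_pow_right hw hρ
  calc (w ^ ρ + 1) ^ t ≤ (w ^ w + 1) ^ t := Nat.pow_le_pow_left (by omega) t
    _ ≤ (w ^ w + 1) ^ w := Nat.pow_le_pow_right (by omega) ht


/-- the number of copies of the basic generator -/
def fSeeds (w T : ℕ) : ℕ := w * ((w ^ w + 1) ^ w * 2) + Lb w T ^ 2 ^ T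

/-- the program of a polynomial computed by a ROABP -/
theorem exists_prog {n w : ℕ} {p : MvPolynomial (Fin n) K} (hp : ComputedByROABP w p) :
    ∃ q : Prog K (Fin w) n, ∀ x : ℕ → K, q.val x = eval (fun l : Fin n => x l) p := by
  obtain ⟨σ, M, u, v, hpe⟩ := hp
  refine ⟨⟨extM M, extM_poly M, extP σ, extP_symm_lt σ, u, v⟩, fun x => ?_⟩
  rw [hpe, eval_roabp σ M u v (fun l : Fin n => x l) (fun l => x (extP σ l))
    (fun l => by rw [extP_apply])]
  rfl

/-- the generator does not kill a nonzero function of polynomials computed by ROABPs -/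
theorem bind_ne_zero_fun [CharZero K] {n w T : ℕ} {p : Fin T → MvPolynomial (Fin n) K}
    (hp : ∀ i, ComputedByROABP w (p i)) (Ψ : MvPolynomial (Fin T) K) (h0 : bind₁ p Ψ ≠ 0) :
    bind₁ (genPoly K n (fSeeds w T)) (bind₁ p Ψ) ≠ 0 := by
  have : Infinite K := inferInstance
  -- the case of width zero
  rcases Nat.eq_zero_or_pos w with hw0 | hw
  · subst hw0
    have hp0 : p = fun _ => 0 := by
      funext i
      obtain ⟨σ, M, u, v, h⟩ := hp i
      rw [h]
      simp
    have hc : bind₁ p Ψ = C (constantCoeff Ψ) := by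
      rw [hp0]
      have : (bind₁ (fun _ : Fin T => (0 : MvPolynomial (Fin n) K))) Ψ =
          C (eval (0 : Fin T → K) Ψ) := by
        apply MvPolynomial.funext
        intro x
        rw [Pool.Agent.W2helper21.ROT.eval_bind, eval_C]
        simp only [map_zero]
        rfl
      rw [this, MvPolynomial.eval_zero]
    rw [hc] at h0 ⊢
    rw [bind₁_C_right]
    intro h1
    apply h0
    have := C_injective _ _ (h1.trans (map_zero C).symm)
    rw [this, map_zero]
  choose q hq using fun i => exists_prog (hp i)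
  have heval : ∀ x' : ℕ → K, fval q Ψ x' = eval (fun l : Fin n => x' l) (bind₁ p Ψ) := by
    intro x'
    rw [Pool.Agent.W2helper21.ROT.eval_bind]
    unfold fval
    congr 2
    funext i
    exact hq i x'
  have hex : ∃ x : Fin n → K, eval x (bind₁ p Ψ) ≠ 0 := by
    by_contra hcon
    push Not at hcon
    exact h0 (MvPolynomial.funext fun x => by rw [hcon x, map_zero])
  obtain ⟨x, hx⟩ := hex
  let x0 : ℕ → K := fun l => if h : l < n then x ⟨l, h⟩ else 0
  have hx0 : (fun l : Fin n => x0 l) = x := by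
    funext l
    simp [x0]
  rw [← hx0, ← heval] at hx
  have hb := numSeeds_bounds hw
  obtain ⟨s, hs⟩ := gen_hits_fun q (K := (w ^ w + 1) ^ w * 2) (by simpa using hb) Ψ hx
  rw [Fintype.card_fin, heval] at hs
  intro hcon
  let s' : Fin (fSeeds w T) ⊕ Fin (fSeeds w T) → K :=
    Sum.elim (fun t => s (Sum.inl t)) (fun t => s (Sum.inr t))
  have h1 := eval_genPoly (q := fSeeds w T) (bind₁ p Ψ) s'
  rw [hcon, map_zero] at h1
  apply hs
  rw [h1]
  congr 2
  funext l
  show G n id (fSeeds w T) s (l : ℕ) = _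
  unfold G
  rw [Finset.sum_range]
  refine Finset.sum_congr rfl fun t _ => ?_
  rw [id, ← prod_erase_eq]
  rfl

/-- the same for many polynomials of bounded transcendence degree -/
theorem bind_ne_zero_trdeg [CharZero K] {n w s T : ℕ} {p : Fin s → MvPolynomial (Fin n) K}
    (hp : ∀ i, ComputedByROABP w (p i)) (hT : TrdegLE T p) (Ψ : MvPolynomial (Fin s) K)
    (h0 : bind₁ p Ψ ≠ 0) : bind₁ (genPoly K n (fSeeds w T)) (bind₁ p Ψ) ≠ 0 := by
  rcases Nat.eq_zero_or_pos s with rfl | hs
  · obtain ⟨c, rfl⟩ := C_surjective (Fin 0) Ψ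
    rw [bind₁_C_right] at h0 ⊢
    rw [bind₁_C_right]
    intro h1
    apply h0
    have := C_injective _ _ (h1.trans (map_zero C).symm)
    rw [this, map_zero]
  · obtain ⟨e, Q, hQ, hdvd⟩ := trdeg_reduce' hs p hT Ψ h0
    have h1 := bind_ne_zero_fun (fun t => hp (e t)) Q hQ
    obtain ⟨R, hR⟩ := hdvd
    intro hcon
    apply h1
    rw [hR, map_mul, hcon, zero_mul]

end Proof

end Pool.Agent.W2helper21.FRO
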