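import Pool.Agent.W2helper21.FRO.Aligned

/-!
# Branching programs, reversal, effective chains, monotone subsets
-/

namespace Pool.Agent.W2helper21.FRO

open Matrix Pool.Agent.W2helper94.PIT

variable {F : Type*} [Field F] {m : Type} [Fintype m] [DecidableEq m]

theorem cp_one (M : ℕ → F → Matrix m m F) (x : ℕ → F) (i : ℕ) :
    cp M x i (i + 1) = M i (x i) := by
  unfold cp
  simp

theorem cp_succ (M : ℕ → F → Matrix m m F) (x : ℕ → F) {i j : ℕ} (h : i ≤ j) :
    cp M x i (j + 1) = cp M x i j * M j (x j) := by
  rw [← cp_mul x h (Nat.le_succ j), Nat.succ_eq_add_one, cp_one]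

/-- all ranks of intervals are maximal at `a` -/
def MaxAt (M : ℕ → F → Matrix m m F) (n : ℕ) (a : ℕ → F) : Prop :=
  ∀ i j, i < j → j ≤ n → ∀ x, (cp M x i j).rank ≤ (cp M a i j).rank

theorem maxAt_of_full {M : ℕ → F → Matrix m m F} {n : ℕ} {a : ℕ → F} (h : Full M n a) :
    MaxAt M n a := by
  intro i j hij hj x
  rcases Nat.eq_zero_or_pos (cp M x i j).rank with h0 | h0
  · rw [h0]
    exact Nat.zero_le _
  · exact h.rank h0 hij hj ⟨x, le_rfl⟩

/-- reversal of the first `n` numbers -/
def revP (n : ℕ) : Equiv.Perm ℕ where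
  toFun l := if l < n then n - 1 - l else l
  invFun l := if l < n then n - 1 - l else l
  left_inv l := by
    by_cases h : l < n
    · have h1 : n - 1 - l < n := by omega
      simp only [h, h1, if_true]
      omega
    · simp [h]
  right_inv l := by
    by_cases h : l < n
    · have h1 : n - 1 - l < n := by omega
      simp only [h, h1, if_true]
      omega
    · simp [h]

theorem revP_lt {n l : ℕ} (h : l < n) : revP n l = n - 1 - l := by
  show (if l < n then n - 1 - l else l) = _
  rw [if_pos h]

theorem revP_symm (n : ℕ) : (revP n).symm = revP n := rfl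

/-- the reversed chain -/
def revM (M : ℕ → F → Matrix m m F) (n : ℕ) : ℕ → F → Matrix m m F :=
  fun l t => (M (n - 1 - l) t)ᵀ

theorem cp_rev (M : ℕ → F → Matrix m m F) (n : ℕ) (x : ℕ → F) (i : ℕ) : ∀ j, i ≤ j → j ≤ n →
    cp (revM M n) (fun l => x (revP n l)) i j = (cp M x (n - j) (n - i))ᵀ := by
  intro j hij
  induction j, hij using Nat.le_induction with
  | base =>
    intro _
    rw [cp_self _ le_rfl, cp_self _ le_rfl, Matrix.transpose_one]
  | succ j hij ih =>
    intro hj
    rw [cp_succ _ _ hij, ih (by omega)]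
    have h1 : cp M x (n - (j + 1)) (n - i) = M (n - 1 - j) (x (n - 1 - j)) *
        cp M x (n - j) (n - i) := by
      rw [← cp_mul x (by omega : n - (j + 1) ≤ n - j) (by omega : n - j ≤ n - i)]
      congr 1
      have e1 : n - (j + 1) = n - 1 - j := by omega
      have e2 : n - j = n - 1 - j + 1 := by omega
      rw [e1, e2, cp_one]
    rw [h1, Matrix.transpose_mul]
    congr 1
    show (M (n - 1 - j) (x (revP n j)))ᵀ = _
    rw [revP_lt (by omega)]

/-- a branching program -/
structure Prog (F : Type*) [Field F] (m : Type) [Fintype m] [DecidableEq m] (n : ℕ) where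
  /-- the matrices -/
  M : ℕ → F → Matrix m m F
  poly : ∀ l, ∀ a b, ∃ p : Polynomial F, ∀ t, p.eval t = M l t a b
  /-- the order of the variables -/
  σ : Equiv.Perm ℕ
  hσ : ∀ v, σ.symm v < n ↔ v < n
  /-- the initial vector -/
  y : m → F
  /-- the final vector -/
  v : m → F

namespace Prog

variable {n : ℕ}

/-- the value -/
def val (p : Prog F m n) (x : ℕ → F) : F := chainF p.M n p.σ p.y p.v x

theorem val_congr (p : Prog F m n) {x x' : ℕ → F} (h : ∀ l < n, x l = x' l) :
    p.val x = p.val x' := by
  unfold val chainF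
  rw [cp_congr]
  intro l _ hl
  apply h
  rw [← p.hσ]
  simpa using hl

theorem val_PF (p : Prog F m n) : IsPF p.val := by
  unfold val chainF
  exact MPF.dot (cp_MPF (g := fun x l => x (p.σ l)) p.poly (fun l => IsPF.coord _) 0 n) p.y p.v

/-- the reversed program -/
noncomputable def rev (p : Prog F m n) : Prog F m n where
  M := revM p.M n
  poly := fun l a b => p.poly (n - 1 - l) b a
  σ := (revP n).trans p.σ
  hσ := by
    intro v
    show (revP n).symm (p.σ.symm v) < n ↔ v < n
    rw [← p.hσ v, revP_symm]
    show (if p.σ.symm v < n then n - 1 - p.σ.symm v else p.σ.symm v) < n ↔ _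
    by_cases h : p.σ.symm v < n
    · rw [if_pos h]
      exact ⟨fun _ => h, fun _ => by omega⟩
    · rw [if_neg h]
  y := p.v
  v := p.y

theorem rev_val (p : Prog F m n) (x : ℕ → F) : p.rev.val x = p.val x := by
  unfold val chainF
  show p.v ⬝ᵥ (cp (revM p.M n) (fun l => x (p.σ (revP n l))) 0 n *ᵥ p.y) = _
  rw [cp_rev p.M n (fun l => x (p.σ l)) 0 n (Nat.zero_le n) le_rfl, Nat.sub_self, Nat.sub_zero,
    Matrix.mulVec_transpose, dotProduct_comm, ← Matrix.dotProduct_mulVec]

theorem rev_pos (p : Prog F m n) {v : ℕ} (hv : v < n) :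
    p.rev.σ.symm v = n - 1 - p.σ.symm v := by
  show revP n (p.σ.symm v) = _
  rw [revP_lt ((p.hσ v).mpr hv)]

theorem rev_max (p : Prog F m n) {a : ℕ → F} (h : MaxAt p.M n (fun l => a (p.σ l))) :
    MaxAt p.rev.M n (fun l => a (p.rev.σ l)) := by
  intro i j hij hj x
  have e2 : cp p.rev.M x i j = (cp p.M (fun l => x ((revP n).symm l)) (n - j) (n - i))ᵀ := by
    have h1 := cp_rev p.M n (fun l => x ((revP n).symm l)) i j hij.le hj
    simp only [Equiv.symm_apply_apply] at h1
    exact h1
  have e3 : cp p.rev.M (fun l => a (p.rev.σ l)) i j =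
      (cp p.M (fun l => a (p.σ l)) (n - j) (n - i))ᵀ :=
    cp_rev p.M n (fun l => a (p.σ l)) i j hij.le hj
  rw [e2, e3, Matrix.rank_transpose, Matrix.rank_transpose]
  exact h _ _ (by omega) (by omega) _

end Prog

/-! ### Effective chains -/

section Effective

variable {n L : ℕ} (p : Prog F m n) (e : ℕ → ℕ) (z : ℕ → F)

/-- the cuts -/
def cut (p : Prog F m n) (e : ℕ → ℕ) (L : ℕ) (l : ℕ) : ℕ := if l < L then p.σ.symm (e l) else n

/-- the effective chain -/
def eff (p : Prog F m n) (e : ℕ → ℕ) (L : ℕ) (z : ℕ → F) : ℕ → F → Matrix m m F := fun l s =>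
  cp p.M (fun q => if q = cut p e L l then s else z (p.σ q)) (cut p e L l) (cut p e L (l + 1))

variable {p e z}

theorem cut_lt (he : ∀ l < L, e l < n)
    (hmono : ∀ l l', l < l' → l' < L → p.σ.symm (e l) < p.σ.symm (e l')) {l l' : ℕ}
    (h : l < l') (h' : l' ≤ L) : cut p e L l < cut p e L l' := by
  unfold cut
  rw [if_pos (by omega)]
  by_cases h1 : l' < L
  · rw [if_pos h1]
    exact hmono l l' h h1
  · rw [if_neg h1]
    exact (p.hσ _).mpr (he l (by omega))

theorem cut_le (he : ∀ l < L, e l < n) (l : ℕ) : cut p e L l ≤ n := by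
  unfold cut
  split_ifs with h
  · exact ((p.hσ _).mpr (he l h)).le
  · exact le_rfl

theorem cut_mem {l : ℕ} (hl : l < L) : p.σ (cut p e L l) = e l := by
  unfold cut
  rw [if_pos hl]
  simp

theorem eff_cp (he : ∀ l < L, e l < n)
    (hmono : ∀ l l', l < l' → l' < L → p.σ.symm (e l) < p.σ.symm (e l')) {ξ x : ℕ → F}
    (h1 : ∀ l < L, x (e l) = ξ l) (h2 : ∀ u, (∀ l < L, e l ≠ u) → x u = z u) (i : ℕ) :
    ∀ j, i ≤ j → j ≤ L →
    cp (eff p e L z) ξ i j = cp p.M (fun q => x (p.σ q)) (cut p e L i) (cut p e L j) := by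
  intro j hij
  induction j, hij using Nat.le_induction with
  | base =>
    intro _
    rw [cp_self _ le_rfl, cp_self _ le_rfl]
  | succ j hij ih =>
    intro hj
    have hcij : cut p e L i ≤ cut p e L j := by
      rcases Nat.lt_or_eq_of_le hij with h | h
      · exact (cut_lt he hmono h (by omega)).le
      · rw [h]
    rw [cp_succ _ _ hij, ih (by omega),
      ← cp_mul (fun q => x (p.σ q)) hcij (cut_lt he hmono (Nat.lt_succ_self j) hj).le]
    congr 1
    unfold eff
    apply cp_congr
    intro q hq1 hq2
    by_cases hq : q = cut p e L j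
    · rw [if_pos hq, hq, cut_mem (by omega : j < L), h1 j (by omega)]
    · rw [if_neg hq]
      symm
      apply h2
      intro l hl hel
      have hql : q = cut p e L l := by
        unfold cut
        rw [if_pos hl, hel]
        simp
      rcases lt_trichotomy l j with h | h | h
      · have := cut_lt he hmono h (by omega : j ≤ L)
        omega
      · exact hq (by rw [hql, h])
      · rcases Nat.lt_or_eq_of_le (Nat.succ_le_of_lt h) with h' | h'
        · have := cut_lt he hmono (l := j + 1) (l' := l) (by omega) (by omega)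
          omega
        · have h'' : l = j + 1 := by omega
          rw [h''] at hql
          omega

theorem eff_val (he : ∀ l < L, e l < n)
    (hmono : ∀ l l', l < l' → l' < L → p.σ.symm (e l) < p.σ.symm (e l')) {ξ x : ℕ → F}
    (h1 : ∀ l < L, x (e l) = ξ l) (h2 : ∀ u, (∀ l < L, e l ≠ u) → x u = z u) :
    p.val x = (p.y ᵥ* cp p.M (fun q => z (p.σ q)) 0 (cut p e L 0)) ⬝ᵥ
      (cp (eff p e L z) ξ 0 L *ᵥ p.v) := by
  rw [eff_cp he hmono h1 h2 0 L (Nat.zero_le L) le_rfl]
  have hcL : cut p e L L = n := by
    unfold cut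
    rw [if_neg (lt_irrefl L)]
  have h3 : cp p.M (fun q => z (p.σ q)) 0 (cut p e L 0) =
      cp p.M (fun q => x (p.σ q)) 0 (cut p e L 0) := by
    apply cp_congr
    intro q _ hq
    symm
    apply h2
    intro l hl hel
    have hql : q = cut p e L l := by
      unfold cut
      rw [if_pos hl, hel]
      simp
    rcases Nat.eq_zero_or_pos l with h | h
    · rw [h] at hql
      omega
    · have := cut_lt he hmono h (by omega : l ≤ L)
      omega
  rw [h3, hcL, ← Matrix.dotProduct_mulVec, Matrix.mulVec_mulVec,
    cp_mul _ (Nat.zero_le _) (cut_le he 0)]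
  rfl

theorem unit_poly {f : F → F} (h : IsPF (fun x : Unit → F => f (x ()))) :
    ∃ p : Polynomial F, ∀ s, p.eval s = f s := by
  obtain ⟨q, hq⟩ := h
  have hq' : ∀ s, MvPolynomial.eval (fun _ => s) q = f s := fun s => hq (fun _ => s)
  refine ⟨MvPolynomial.aeval (fun _ => Polynomial.X) q, fun s => ?_⟩
  rw [← hq' s, ← Polynomial.coe_aeval_eq_eval, ← MvPolynomial.aeval_eq_eval]
  have := MvPolynomial.comp_aeval_apply (fun _ : Unit => (Polynomial.X : Polynomial F))
    (Polynomial.aeval s : Polynomial F →ₐ[F] F) q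
  rw [this]
  congr 2
  funext _
  simp

theorem eff_poly (l : ℕ) (a b : m) : ∃ q : Polynomial F, ∀ s, q.eval s = eff p e L z l s a b := by
  apply unit_poly
  have := cp_MPF (ι := Unit) (g := fun x q => if q = cut p e L l then x () else z (p.σ q))
    p.poly (fun q => by
      by_cases hq : q = cut p e L l
      · simp only [hq, if_true]
        exact IsPF.coord _
      · simp only [hq, if_false]
        exact IsPF.const _) (cut p e L l) (cut p e L (l + 1))
  exact this a b

end Effective

/-! ### Monotone subsets -/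

/-- The theorem of Erdős and Szekeres. -/
theorem es_fin (pos : ℕ → ℕ) (hpos : Function.Injective pos) (b : ℕ) : ∀ (a : ℕ) (T : Finset ℕ),
    a * b < T.card →
    (∃ T' ⊆ T, T'.card = a + 1 ∧ StrictMonoOn pos T') ∨
    (∃ T' ⊆ T, T'.card = b + 1 ∧ StrictAntiOn pos T') := by
  classical
  intro a
  induction a with
  | zero =>
    intro T hT
    left
    obtain ⟨i, hi⟩ := Finset.card_pos.mp (by omega : 0 < T.card)
    refine ⟨{i}, by simpa using hi, by simp, ?_⟩
    intro x hx y hy hxy
    rw [Finset.coe_singleton, Set.mem_singleton_iff] at hx hy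
    omega
  | succ a ih =>
    intro T hT
    let R : Finset ℕ := T.filter fun i => ∀ j ∈ T, j < i → pos i < pos j
    have hRanti : StrictAntiOn pos R := by
      intro x hx y hy hxy
      rw [Finset.mem_coe, Finset.mem_filter] at hx hy
      exact hy.2 x hx.1 hxy
    by_cases hR : b + 1 ≤ R.card
    · right
      obtain ⟨T', hT', hc⟩ := Finset.exists_subset_card_eq hR
      exact ⟨T', hT'.trans (Finset.filter_subset _ _), hc,
        hRanti.mono (by exact_mod_cast hT')⟩
    · have hc : (T \ R).card + R.card = T.card :=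
        Finset.card_sdiff_add_card_eq_card (Finset.filter_subset _ _)
      have h1 : a * b < (T \ R).card := by
        have : (a + 1) * b = a * b + b := by ring
        omega
      rcases ih (T \ R) h1 with ⟨T', hT', hcard, hmono⟩ | ⟨T', hT', hcard, hanti⟩
      · left
        have hne : T'.Nonempty := Finset.card_pos.mp (by omega)
        set i := T'.min' hne with hi
        have hiT' : i ∈ T' := Finset.min'_mem _ _
        have hiTR := hT' hiT'
        rw [Finset.mem_sdiff] at hiTR
        have hnot : ∃ j ∈ T, j < i ∧ pos j < pos i := by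
          by_contra hcon
          push Not at hcon
          apply hiTR.2
          rw [Finset.mem_filter]
          refine ⟨hiTR.1, fun j hj hji => ?_⟩
          have h2 := hcon j hj hji
          have h3 : pos i ≠ pos j := fun h => by
            have := hpos h
            omega
          omega
        obtain ⟨j, hjT, hji, hpji⟩ := hnot
        have hjT' : j ∉ T' := fun h => by
          have := Finset.min'_le T' j h
          omega
        refine ⟨insert j T', ?_, by rw [Finset.card_insert_of_notMem hjT', hcard], ?_⟩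
        · intro x hx
          rw [Finset.mem_insert] at hx
          rcases hx with rfl | hx
          · exact hjT
          · exact (Finset.mem_sdiff.mp (hT' hx)).1
        · intro x hx y hy hxy
          rw [Finset.coe_insert, Set.mem_insert_iff] at hx hy
          rcases hx with rfl | hx
          · rcases hy with rfl | hy
            · omega
            · have h4 : i ≤ y := Finset.min'_le T' y hy
              rcases Nat.lt_or_eq_of_le h4 with h5 | h5
              · exact hpji.trans (hmono hiT' hy h5)
              · rw [← h5]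
                exact hpji
          · rcases hy with rfl | hy
            · have h4 : i ≤ x := Finset.min'_le T' x hx
              omega
            · exact hmono hx hy hxy
      · right
        exact ⟨T', hT'.trans Finset.sdiff_subset, hcard, hanti⟩

theorem es_sq (pos : ℕ → ℕ) (hpos : Function.Injective pos) {s : ℕ} {T : Finset ℕ}
    (h : s * s ≤ T.card) : ∃ T' ⊆ T, T'.card = s ∧ (StrictMonoOn pos T' ∨ StrictAntiOn pos T') := by
  rcases Nat.eq_zero_or_pos s with h0 | h0
  · refine ⟨∅, Finset.empty_subset _, by rw [h0]; rfl, Or.inl ?_⟩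
    intro x hx
    rw [Finset.coe_empty] at hx
    exact absurd hx (Set.notMem_empty x)
  · obtain ⟨s, rfl⟩ := Nat.exists_eq_succ_of_ne_zero h0.ne'
    have h1 : s * s < T.card := by
      have : (s.succ) * (s.succ) = s * s + 2 * s + 1 := by
        rw [Nat.succ_eq_add_one]; ring
      omega
    rcases es_fin pos hpos s s T h1 with ⟨T', h2, h3, h4⟩ | ⟨T', h2, h3, h4⟩
    · exact ⟨T', h2, h3, Or.inl h4⟩
    · exact ⟨T', h2, h3, Or.inr h4⟩

theorem es_many (s : ℕ) : ∀ (k : ℕ) (pos : Fin k → ℕ → ℕ), (∀ t, Function.Injective (pos t)) →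
    ∀ T : Finset ℕ, s ^ (2 ^ k) ≤ T.card →
    ∃ T' ⊆ T, T'.card = s ∧ ∀ t, StrictMonoOn (pos t) T' ∨ StrictAntiOn (pos t) T' := by
  intro k
  induction k with
  | zero =>
    intro pos _ T hT
    rw [pow_zero, pow_one] at hT
    obtain ⟨T', h1, h2⟩ := Finset.exists_subset_card_eq hT
    exact ⟨T', h1, h2, fun t => t.elim0⟩
  | succ k ih =>
    intro pos hpos T hT
    have h1 : s ^ 2 ^ k * s ^ 2 ^ k ≤ T.card := by
      rw [← pow_add, ← two_mul, ← pow_succ']
      exact hT
    obtain ⟨T1, h2, h3, h4⟩ := es_sq (pos (Fin.last k)) (hpos _) h1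
    obtain ⟨T2, h5, h6, h7⟩ := ih (fun t => pos t.castSucc) (fun t => hpos _) T1 h3.ge
    refine ⟨T2, h5.trans h2, h6, fun t => ?_⟩
    refine Fin.lastCases ?_ (fun t => ?_) t
    · rcases h4 with h | h
      · exact Or.inl (h.mono (by exact_mod_cast h5))
      · exact Or.inr (h.mono (by exact_mod_cast h5))
    · exact h7 t

end Pool.Agent.W2helper21.FRO
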