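import Pool.Agent.W2helper21.FRO.Prog

/-!
# Functions of branching programs in different orders
-/

namespace Pool.Agent.W2helper21.FRO

open Matrix Pool.Agent.W2helper94.PIT

variable {F : Type*} [Field F] {m : Type} [Fintype m] [DecidableEq m]

/-- the value of the function -/
noncomputable def fval {n T : ℕ} (p : Fin T → Prog F m n) (Ψ : MvPolynomial (Fin T) F) (x : ℕ → F) :
    F := MvPolynomial.eval (fun t => (p t).val x) Ψ

theorem fval_PF {n T : ℕ} (p : Fin T → Prog F m n) (Ψ : MvPolynomial (Fin T) F) :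
    IsPF (fval p Ψ) := by
  choose q hq using fun t => (p t).val_PF
  refine ⟨MvPolynomial.bind₁ q Ψ, fun x => ?_⟩
  rw [Pool.Agent.W2helper21.ROT.eval_bind]
  unfold fval
  congr 2
  funext t
  rw [hq]

theorem fval_congr {n T : ℕ} (p : Fin T → Prog F m n) (Ψ : MvPolynomial (Fin T) F)
    {x x' : ℕ → F} (h : ∀ l < n, x l = x' l) : fval p Ψ x = fval p Ψ x' := by
  unfold fval
  congr 2
  funext t
  exact (p t).val_congr h

/-- **Few modifications suffice for functions of branching programs.** -/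
theorem rigid [CharZero F] {n T : ℕ} (p : Fin T → Prog F m n) {a : ℕ → F}
    (hmax : ∀ t, MaxAt (p t).M n (fun l => a ((p t).σ l))) (Ψ : MvPolynomial (Fin T) F)
    (h : ∀ x, Md a (Lb (Fintype.card m) T ^ 2 ^ T) x → fval p Ψ x = 0) (x0 : ℕ → F) :
    fval p Ψ x0 = 0 := by
  classical
  by_contra hx0
  set L := Lb (Fintype.card m) T with hL
  let 𝒮 : Finset (Finset ℕ) := (Finset.range n).powerset.filter fun S =>
    ∃ x : ℕ → F, (∀ l, l ∉ S → x l = a l) ∧ fval p Ψ x ≠ 0
  have h𝒮 : 𝒮.Nonempty := by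
    refine ⟨Finset.range n, ?_⟩
    rw [Finset.mem_filter, Finset.mem_powerset]
    refine ⟨Finset.Subset.refl _, fun l => if l < n then x0 l else a l, fun l hl => ?_, ?_⟩
    · rw [Finset.mem_range] at hl
      simp only [if_neg hl]
    · rw [fval_congr p Ψ (x' := x0) (fun l hl => by simp only [if_pos hl])]
      exact hx0
  obtain ⟨S, hS, hmin⟩ := Finset.exists_min_image 𝒮 Finset.card h𝒮
  rw [Finset.mem_filter, Finset.mem_powerset] at hS
  obtain ⟨hSn, xS, hxS, hxSne⟩ := hS
  have hcard : L ^ 2 ^ T ≤ S.card := by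
    by_contra hlt
    push Not at hlt
    exact hxSne (h xS ⟨S, hlt.le, hxS⟩)
  obtain ⟨J, hJS, hJc, hJ⟩ := es_many L T (fun t => (p t).σ.symm)
    (fun t => (p t).σ.symm.injective) S hcard
  -- align the programs
  have halign : ∀ t, ∃ q : Prog F m n, (∀ x, q.val x = (p t).val x) ∧
      MaxAt q.M n (fun l => a (q.σ l)) ∧ StrictMonoOn q.σ.symm J := by
    intro t
    rcases hJ t with h1 | h1
    · exact ⟨p t, fun _ => rfl, hmax t, h1⟩
    · refine ⟨(p t).rev, (p t).rev_val, (p t).rev_max (hmax t), ?_⟩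
      intro u hu v hv huv
      have hun : u < n := Finset.mem_range.mp (hSn (hJS hu))
      have hvn : v < n := Finset.mem_range.mp (hSn (hJS hv))
      rw [(p t).rev_pos hun, (p t).rev_pos hvn]
      have h2 := h1 hu hv huv
      have h3 := ((p t).hσ u).mpr hun
      omega
  choose q hqval hqmax hqmono using halign
  have hfv : ∀ x, fval q Ψ x = fval p Ψ x := by
    intro x
    unfold fval
    congr 2
    funext t
    exact hqval t x
  -- the enumeration of `J`
  let e : ℕ → ℕ := fun l => if h : l < L then J.orderEmbOfFin hJc ⟨l, h⟩ else 0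
  have heJ : ∀ l < L, e l ∈ J := by
    intro l hl
    simp only [e]
    rw [dif_pos hl]
    exact Finset.orderEmbOfFin_mem _ _ _
  have he : ∀ l < L, e l < n := fun l hl => Finset.mem_range.mp (hSn (hJS (heJ l hl)))
  have hemono : ∀ l l', l < l' → l' < L → e l < e l' := by
    intro l l' hll hl'
    simp only [e]
    rw [dif_pos hl', dif_pos (hll.trans hl')]
    exact (J.orderEmbOfFin hJc).strictMono hll
  have heinj : ∀ l < L, ∀ l' < L, e l = e l' → l = l' := by
    intro l hl l' hl' hll
    rcases lt_trichotomy l l' with h1 | h1 | h1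
    · have := hemono l l' h1 hl'
      omega
    · exact h1
    · have := hemono l' l h1 hl
      omega
  have hesurj : ∀ u ∈ J, ∃ l < L, e l = u := by
    intro u hu
    have h1 : u ∈ Set.range (J.orderEmbOfFin hJc) := by
      rw [Finset.range_orderEmbOfFin]
      exact hu
    obtain ⟨⟨l, hl⟩, hlu⟩ := h1
    refine ⟨l, hl, ?_⟩
    simp only [e]
    rw [dif_pos hl]
    exact hlu
  have hmono : ∀ t, ∀ l l', l < l' → l' < L → (q t).σ.symm (e l) < (q t).σ.symm (e l') :=
    fun t l l' hll hl' => hqmono t (heJ l (hll.trans hl')) (heJ l' hl') (hemono l l' hll hl')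
  -- generic values on `S \ J`
  let Z : (ℕ → F) → ℕ → F := fun x u => if u ∈ S \ J then x u else a u
  let W : (ℕ → F) → ℕ → F := fun x u => if u ∈ S then x u else a u
  have hZPF : ∀ u, IsPF (fun x => Z x u) := by
    intro u
    by_cases hu : u ∈ S \ J
    · simp only [Z, if_pos hu]
      exact IsPF.coord _
    · simp only [Z, if_neg hu]
      exact IsPF.const _
  have hWPF : ∀ u, IsPF (fun x => W x u) := by
    intro u
    by_cases hu : u ∈ S
    · simp only [W, if_pos hu]
      exact IsPF.coord _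
    · simp only [W, if_neg hu]
      exact IsPF.const _
  have hZa : Z a = a := by
    funext u
    simp only [Z, ite_self]
  choose P Q hPQ using fun (i : Fin T × ℕ × ℕ) =>
    exists_det_ne_zero (le_refl (cp (q i.1).M (fun l => a ((q i.1).σ l)) i.2.1 i.2.2).rank)
  let μ : Option (Fin T × ℕ × ℕ) → (ℕ → F) → F := fun o x => match o with
    | none => fval q Ψ (W x)
    | some i => (P i * cp (q i.1).M (fun l => Z x ((q i.1).σ l)) i.2.1 i.2.2 * Q i).det
  have hμPF : ∀ o, IsPF (μ o) := by
    intro o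
    cases o with
    | none => exact (fval_PF q Ψ).comp hWPF
    | some i =>
      exact MPF.det (((MPF.const _).mul (cp_MPF (g := fun x l => Z x ((q i.1).σ l)) (q i.1).poly
        (fun l => hZPF _) _ _)).mul (MPF.const _))
  have hμ0 : ∀ o, ∃ x, μ o x ≠ 0 := by
    intro o
    cases o with
    | none =>
      refine ⟨xS, ?_⟩
      show fval q Ψ (W xS) ≠ 0
      have : W xS = xS := by
        funext u
        simp only [W]
        by_cases hu : u ∈ S
        · rw [if_pos hu]
        · rw [if_neg hu, hxS u hu]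
      rw [this, hfv]
      exact hxSne
    | some i =>
      refine ⟨a, ?_⟩
      show (P i * cp (q i.1).M (fun l => Z a ((q i.1).σ l)) i.2.1 i.2.2 * Q i).det ≠ 0
      rw [hZa]
      exact hPQ i
  obtain ⟨x1, hx1⟩ := IsPF.exists_common
    (insert none (((Finset.univ : Finset (Fin T)) ×ˢ (Finset.range (n + 1) ×ˢ
      Finset.range (n + 1))).image some)) (fun o _ => hμPF o) (fun o _ => hμ0 o)
  have hx1P : fval p Ψ (W x1) ≠ 0 := by
    rw [← hfv]
    exact hx1 none (Finset.mem_insert_self _ _)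
  have hx1r : ∀ t i j, i ≤ n → j ≤ n →
      (cp (q t).M (fun l => a ((q t).σ l)) i j).rank ≤
        (cp (q t).M (fun l => Z x1 ((q t).σ l)) i j).rank := by
    intro t i j hi hj
    have h1 := hx1 (some (t, i, j)) (Finset.mem_insert_of_mem (Finset.mem_image_of_mem _ (by
      rw [Finset.mem_product, Finset.mem_product, Finset.mem_range, Finset.mem_range]
      exact ⟨Finset.mem_univ _, Nat.lt_succ_of_le hi, Nat.lt_succ_of_le hj⟩)))
    exact le_rank_of_det_ne_zero h1
  -- points
  let idx : ℕ → ℕ := fun u => if h : ∃ l, l < L ∧ e l = u then Classical.choose h else 0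
  have hidx : ∀ l < L, idx (e l) = l := by
    intro l hl
    have h1 : ∃ l', l' < L ∧ e l' = e l := ⟨l, hl, rfl⟩
    simp only [idx]
    rw [dif_pos h1]
    have h2 := Classical.choose_spec h1
    exact heinj _ h2.1 l hl h2.2
  obtain ⟨pt, hpt⟩ : ∃ pt : (ℕ → F) → ℕ → F, ∀ ξ u, pt ξ u =
      if u ∈ J then ξ (idx u) else Z x1 u := ⟨_, fun _ _ => rfl⟩
  have hpt1 : ∀ ξ, ∀ l < L, pt ξ (e l) = ξ l := by
    intro ξ l hl
    rw [hpt, if_pos (heJ l hl), hidx l hl]
  have hpt2 : ∀ ξ u, (∀ l < L, e l ≠ u) → pt ξ u = Z x1 u := by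
    intro ξ u hu
    rw [hpt, if_neg]
    intro huJ
    obtain ⟨l, hl, hlu⟩ := hesurj u huJ
    exact hu l hl hlu
  have hptJ : pt (fun l => a (e l)) = Z x1 := by
    funext u
    rw [hpt]
    by_cases hu : u ∈ J
    · obtain ⟨l, hl, hlu⟩ := hesurj u hu
      rw [if_pos hu, ← hlu, hidx l hl]
      simp only [Z]
      rw [if_neg]
      rw [Finset.mem_sdiff, not_and_not_right]
      intro _
      exact heJ l hl
    · rw [if_neg hu]
  -- the effective chains
  let D : Fin T → ℕ → F → Matrix m m F := fun t l s => eff (q t) e L (Z x1) l (a (e l) + s)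
  have hDcp : ∀ t x i j, cp (D t) x i j = cp (eff (q t) e L (Z x1)) (fun l => a (e l) + x l) i j :=
    fun t x i j => rfl
  have hDpoly : ∀ t l, ∀ a' b', ∃ r : Polynomial F, ∀ s, r.eval s = D t l s a' b' := by
    intro t l a' b'
    obtain ⟨r, hr⟩ := eff_poly (p := q t) (e := e) (z := Z x1) (L := L) l a' b'
    refine ⟨r.comp (Polynomial.C (a (e l)) + Polynomial.X), fun s => ?_⟩
    rw [Polynomial.eval_comp, Polynomial.eval_add, Polynomial.eval_C, Polynomial.eval_X, hr]
  have hrank : ∀ t i j, i < j → j ≤ L → ∀ x, (cp (D t) x i j).rank ≤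
      (cp (D t) (fun _ => 0) i j).rank := by
    intro t i j hij hj x
    rw [hDcp, hDcp]
    rw [eff_cp he (hmono t) (hpt1 _) (hpt2 _) i j hij.le hj,
      eff_cp he (hmono t) (hpt1 _) (hpt2 _) i j hij.le hj]
    have h0 : (fun l => a (e l) + (fun _ : ℕ => (0 : F)) l) = fun l => a (e l) := by
      funext l
      simp
    rw [h0, hptJ]
    have h1 := cut_lt he (hmono t) hij hj
    exact (hqmax t _ _ h1 (cut_le he j) _).trans (hx1r t _ _ (cut_le he i) (cut_le he j))
  have hval : ∀ t x, (q t).val (pt fun l => a (e l) + x l) =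
      ((q t).y ᵥ* cp (q t).M (fun r => Z x1 ((q t).σ r)) 0 (cut (q t) e L 0)) ⬝ᵥ
        (cp (D t) x 0 L *ᵥ (q t).v) := by
    intro t x
    exact eff_val (p := q t) (e := e) (z := Z x1) (L := L) he (hmono t)
      (ξ := fun l => a (e l) + x l) (x := pt fun l => a (e l) + x l) (hpt1 _) (hpt2 _)
  have hfin := aligned (τ := Fin T) hDpoly (L := L) (by rw [Fintype.card_fin]) hrank
    (fun t => (q t).y ᵥ* cp (q t).M (fun r => Z x1 ((q t).σ r)) 0 (cut (q t) e L 0))
    (fun t => (q t).v) Ψ (by
      intro i hi x hxi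
      have h1 : MvPolynomial.eval (fun t => ((q t).y ᵥ* cp (q t).M
          (fun r => Z x1 ((q t).σ r)) 0 (cut (q t) e L 0)) ⬝ᵥ (cp (D t) x 0 L *ᵥ (q t).v)) Ψ =
          fval p Ψ (pt fun l => a (e l) + x l) := by
        rw [← hfv]
        unfold fval
        congr 2
        funext t
        rw [hval]
      rw [h1]
      by_contra hne
      have hmem : S.erase (e i) ∈ 𝒮 := by
        rw [Finset.mem_filter, Finset.mem_powerset]
        refine ⟨(Finset.erase_subset _ _).trans hSn, pt fun l => a (e l) + x l, ?_, hne⟩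
        intro u hu
        by_cases huJ : u ∈ J
        · have hue : u = e i := by
            by_contra hcon
            exact hu (Finset.mem_erase.mpr ⟨hcon, hJS huJ⟩)
          rw [hue, hpt1 _ i hi, hxi, add_zero]
        · rw [hpt, if_neg huJ]
          simp only [Z]
          rw [if_neg]
          intro huS
          rw [Finset.mem_sdiff] at huS
          apply hu
          refine Finset.mem_erase.mpr ⟨?_, huS.1⟩
          rintro rfl
          exact huJ (heJ i hi)
      have h2 := hmin _ hmem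
      have h3 : (S.erase (e i)).card < S.card := Finset.card_erase_lt_of_mem (hJS (heJ i hi))
      omega) (fun l => x1 (e l) - a (e l))
  apply hx1P
  have h4 : W x1 = pt fun l => a (e l) + (x1 (e l) - a (e l)) := by
    funext u
    by_cases huJ : u ∈ J
    · obtain ⟨l, hl, hlu⟩ := hesurj u huJ
      rw [← hlu, hpt1 _ l hl]
      simp only [W]
      rw [if_pos (hJS (heJ l hl))]
      ring
    · rw [hpt2 _ u (fun l hl hlu => huJ (by rw [← hlu]; exact heJ l hl))]
      simp only [W, Z, Finset.mem_sdiff]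
      by_cases huS : u ∈ S
      · rw [if_pos huS, if_pos ⟨huS, huJ⟩]
      · rw [if_neg huS, if_neg (fun h => huS h.1)]
  rw [h4, ← hfv, ← hfin]
  unfold fval
  congr 2
  funext t
  rw [hval]

/-- **The generator hits functions of branching programs.** -/
theorem gen_hits_fun [CharZero F] {n T : ℕ} (p : Fin T → Prog F m n) {K : ℕ}
    (hK : ∀ t ≤ Fintype.card m, ∀ ρ ≤ Fintype.card m,
      (Fintype.card (Fin ρ → m) + 1) ^ t * 2 ≤ K) (Ψ : MvPolynomial (Fin T) F) {x0 : ℕ → F}
    (hx0 : fval p Ψ x0 ≠ 0) :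
    ∃ s : ℕ ⊕ ℕ → F, fval p Ψ (G n id (Fintype.card m * K + Lb (Fintype.card m) T ^ 2 ^ T) s) ≠
      0 := by
  have hσ' : ∀ i, ∀ l < n, (p i).σ l < n := fun i l hl => by
    rw [← (p i).hσ]
    simpa using hl
  have hbase : ∀ i, ∃ B : (ℕ ⊕ ℕ → F) → F, IsPF B ∧ (∃ s, B s ≠ 0) ∧
      ∀ s, B s ≠ 0 → Full (p i).M n (G n (p i).σ (Fintype.card m * K) s) :=
    fun i => base_gen' (p i).poly (hσ' i) (fun l _ l' _ h => (p i).σ.injective h) hK
  choose B hB hB0 hBF using hbase
  obtain ⟨s, hs⟩ := IsPF.exists_common Finset.univ (fun i _ => hB i) (fun i _ => hB0 i)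
  let a : ℕ → F := G n id (Fintype.card m * K) s
  have hF : ∀ i, Full (p i).M n (fun l => a ((p i).σ l)) :=
    fun i => hBF i s (hs i (Finset.mem_univ i))
  have hex : ∃ x, Md a (Lb (Fintype.card m) T ^ 2 ^ T) x ∧ fval p Ψ x ≠ 0 := by
    by_contra hcon
    push Not at hcon
    exact hx0 (rigid p (fun i => maxAt_of_full (hF i)) Ψ hcon x0)
  obtain ⟨x, hx, hne⟩ := hex
  obtain ⟨s', hs'⟩ := G_add (n := n) (σ := id) (fun l hl => hl) (fun l _ l' _ h => h) _ s _ x hx
  refine ⟨s', ?_⟩
  rw [fval_congr p Ψ hs']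
  exact hne

end Pool.Agent.W2helper21.FRO
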