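import Pool.Agent.W2helper94.PIT.GenSum

/-!
# Segments of a chain with exceptional positions
-/

namespace Pool.Agent.W2helper21.FRO

open Matrix Pool.Agent.W2helper94.PIT

variable {F : Type*} [Field F] {m k : Type} [Fintype m] [DecidableEq m] [Fintype k] [DecidableEq k]
  {M : ℕ → F → Matrix m m F}

/-- block diagonal copies of a representation -/
def copies (Φ : PolyRep F m k) (J : Type) [Fintype J] [DecidableEq J] : PolyRep F m (k × J) where
  toFun :=
    { toFun := fun A => Matrix.blockDiagonal fun _ => Φ.toFun A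
      map_one' := by
        have : (fun _ : J => Φ.toFun 1) = fun _ => (1 : Matrix k k F) := by
          funext _; exact map_one _
        rw [this]
        exact Matrix.blockDiagonal_one
      map_mul' := fun A B => by
        have : (fun _ : J => Φ.toFun (A * B)) = fun _ => Φ.toFun A * Φ.toFun B := by
          funext _; exact map_mul _ _ _
        rw [this]
        exact Matrix.blockDiagonal_mul (fun _ => Φ.toFun A) (fun _ => Φ.toFun B) }
  pf := by
    intro ι A hA f g
    show IsPF (fun x => Matrix.blockDiagonal (fun _ => Φ.toFun (A x)) f g)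
    simp only [Matrix.blockDiagonal_apply]
    split_ifs
    · exact Φ.pf hA _ _
    · exact IsPF.const 0

theorem Psi_copies (Φ : PolyRep F m k) {J : Type} [Fintype J] [DecidableEq J] (y v : J → k → F)
    (i j : ℕ) (x : ℕ → F) :
    Psi (copies Φ J) M (fun t => y t.2 t.1) (fun t => v t.2 t.1) i j x =
      ∑ e, y e ⬝ᵥ (Φ.toFun (cp M x i j) *ᵥ v e) := by
  unfold Psi
  have h1 : ∀ t : k × J, ((copies Φ J).toFun (cp M x i j) *ᵥ fun t => v t.2 t.1) t =
      (Φ.toFun (cp M x i j) *ᵥ v t.2) t.1 := by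
    intro t
    obtain ⟨t1, t2⟩ := t
    show (Matrix.blockDiagonal (fun _ => Φ.toFun (cp M x i j)) *ᵥ fun t => v t.2 t.1) (t1, t2) = _
    simp only [Matrix.mulVec, dotProduct, Matrix.blockDiagonal_apply]
    rw [Fintype.sum_prod_type]
    refine Finset.sum_congr rfl fun c _ => ?_
    rw [Finset.sum_eq_single t2]
    · simp
    · intro b _ hb
      simp [Ne.symm hb]
    · simp
  simp only [dotProduct, h1]
  rw [Fintype.sum_prod_type, Finset.sum_comm]

/-- number of modifications for one segment -/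
def N1 (k w r : ℕ) : ℕ := (k * r + 1) ^ w * 2

/-- one segment, all functionals of a representation -/
theorem seg2 [Infinite F] (hM : ∀ l, ∀ a b, ∃ p : Polynomial F, ∀ t, p.eval t = M l t a b)
    {n : ℕ} {a : ℕ → F} (hF : Full M n a) (Φ : PolyRep F m k) (hΦ : Φ.toFun 0 = 0)
    {J : Type} [Fintype J] [DecidableEq J] {i j : ℕ}
    (hij : i ≤ j) (hj : j ≤ n) (y v : J → k → F) {z : ℕ → F}
    (hz : ∑ e, y e ⬝ᵥ (Φ.toFun (cp M z i j) *ᵥ v e) ≠ 0) :
    ∃ x, Md a (N1 (Fintype.card k) (Fintype.card m) (Fintype.card J)) x ∧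
      ∑ e, y e ⬝ᵥ (Φ.toFun (cp M x i j) *ᵥ v e) ≠ 0 := by
  by_contra hcon
  push Not at hcon
  apply hz
  have hC := claim_all hM (copies Φ J) (n := n) (a := a) (Fintype.card m) le_rfl
    (fun ρ h1 _ => hF ρ (by omega))
  have e1 : Fintype.card m + 1 - Fintype.card m = 1 := by omega
  rw [e1] at hC
  rw [← Psi_copies]
  have hne : cp M z i j ≠ 0 := by
    intro h0
    apply hz
    rw [h0, hΦ]
    simp
  refine hC i j hij hj ?_ _ _ (fun x hx => ?_) z
  · intro p q h1 h2 h3
    exact geR_one_of_ne hne h1.le h2.le h3.le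
  · rw [Psi_copies]
    apply hcon x
    unfold N1
    rw [Fintype.card_prod] at hx
    exact hx

/-- the chain `Φ(M l)` with exceptional matrices `X l` at the positions in `E` -/
def exc (Φ : PolyRep F m k) (M : ℕ → F → Matrix m m F) (E : Finset ℕ) (X : ℕ → Matrix k k F) :
    ℕ → F → Matrix k k F := fun l t => if l ∈ E then X l else Φ.toFun (M l t)

theorem cp_exc (Φ : PolyRep F m k) (E : Finset ℕ) (X : ℕ → Matrix k k F) (x : ℕ → F) (i j : ℕ)
    (h : ∀ l, i ≤ l → l < j → l ∉ E) :
    cp (exc Φ M E X) x i j = Φ.toFun (cp M x i j) := by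
  unfold cp
  rw [map_list_prod, List.map_map]
  congr 1
  apply List.map_congr_left
  intro l hl
  rw [List.Ico.mem] at hl
  unfold exc
  rw [if_neg (h l hl.1 hl.2)]
  rfl

theorem cp_exc_congr (Φ : PolyRep F m k) {E E' : Finset ℕ} (X : ℕ → Matrix k k F) (x : ℕ → F)
    (i j : ℕ) (h : ∀ l, i ≤ l → l < j → (l ∈ E ↔ l ∈ E')) :
    cp (exc Φ M E X) x i j = cp (exc Φ M E' X) x i j := by
  unfold cp
  congr 1
  apply List.map_congr_left
  intro l hl
  rw [List.Ico.mem] at hl
  unfold exc
  have := h l hl.1 hl.2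
  by_cases h1 : l ∈ E
  · rw [if_pos h1, if_pos (this.mp h1)]
  · rw [if_neg h1, if_neg (fun h2 => h1 (this.mpr h2))]

/-- **chains with exceptional positions** -/
theorem multi [Infinite F] (hM : ∀ l, ∀ a b, ∃ p : Polynomial F, ∀ t, p.eval t = M l t a b)
    {n : ℕ} {a : ℕ → F} (hF : Full M n a) (Φ : PolyRep F m k) (hΦ : Φ.toFun 0 = 0)
    {J : Type} [Fintype J] [DecidableEq J] (X : ℕ → Matrix k k F) (y : J → k → F) :
    ∀ s c : ℕ, c ≤ n → ∀ E : Finset ℕ, E.card ≤ s →
      ∀ v : J → k → F, ∀ z : ℕ → F,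
        ∑ e, y e ⬝ᵥ (cp (exc Φ M E X) z 0 c *ᵥ v e) ≠ 0 →
      ∃ x, Md a ((s + 1) * N1 (Fintype.card k) (Fintype.card m) (Fintype.card J)) x ∧
        ∑ e, y e ⬝ᵥ (cp (exc Φ M E X) x 0 c *ᵥ v e) ≠ 0 := by
  intro s
  have nox : ∀ s c : ℕ, c ≤ n → ∀ E : Finset ℕ, (∀ l, l < c → l ∉ E) →
      ∀ v : J → k → F, ∀ z : ℕ → F,
        ∑ e, y e ⬝ᵥ (cp (exc Φ M E X) z 0 c *ᵥ v e) ≠ 0 →
      ∃ x, Md a ((s + 1) * N1 (Fintype.card k) (Fintype.card m) (Fintype.card J)) x ∧
        ∑ e, y e ⬝ᵥ (cp (exc Φ M E X) x 0 c *ᵥ v e) ≠ 0 := by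
    intro s c hc E hE v z hz
    rw [cp_exc Φ E X z 0 c (fun l _ hl => hE l hl)] at hz
    obtain ⟨x, hx, hne⟩ := seg2 hM hF Φ hΦ (Nat.zero_le c) hc y v hz
    refine ⟨x, hx.mono (Nat.le_mul_of_pos_left _ (by omega)), ?_⟩
    rw [cp_exc Φ E X x 0 c (fun l _ hl => hE l hl)]
    exact hne
  induction s with
  | zero =>
    intro c hc E hE v z hz
    have hE0 : E = ∅ := Finset.card_eq_zero.mp (by omega)
    exact nox 0 c hc E (fun l _ => by rw [hE0]; simp) v z hz
  | succ s ih =>
    intro c hc E hE v z hz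
    by_cases hex : ∃ p, p < c ∧ p ∈ E
    · obtain ⟨p, ⟨hpc, hpE⟩, hmax⟩ := exists_max_window
        (P := fun p => p < c ∧ p ∈ E) (B := c) hex (fun p hp => hp.1.le)
      have hnoE : ∀ l, p + 1 ≤ l → l < c → l ∉ E := fun l h1 h2 h3 =>
        hmax l (by omega) ⟨h2, h3⟩
      -- step 1
      have hz1 : ∑ e, (y e ᵥ* cp (exc Φ M E X) z 0 (p + 1)) ⬝ᵥ
          (Φ.toFun (cp M z (p + 1) c) *ᵥ v e) ≠ 0 := by
        intro h0
        apply hz
        rw [← h0]
        refine Finset.sum_congr rfl fun e _ => ?_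
        rw [← cp_exc Φ E X z (p + 1) c hnoE,
          ← cp_mul z (Nat.zero_le (p + 1)) (by omega : p + 1 ≤ c),
          ← Matrix.mulVec_mulVec, Matrix.dotProduct_mulVec]
      obtain ⟨z1, hz1m, hz1n⟩ := seg2 hM hF Φ hΦ (by omega : p + 1 ≤ c) hc _ v hz1
      -- step 2
      have hz2 : ∑ e, y e ⬝ᵥ (cp (exc Φ M (E.erase p) X) z 0 p *ᵥ
          (cp (exc Φ M E X) z1 p c *ᵥ v e)) ≠ 0 := by
        intro h0
        apply hz1n
        rw [← h0]
        refine Finset.sum_congr rfl fun e _ => ?_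
        have hpp : cp (exc Φ M E X) z p (p + 1) = cp (exc Φ M E X) z1 p (p + 1) := by
          unfold cp
          congr 1
          apply List.map_congr_left
          intro l hl
          rw [List.Ico.mem] at hl
          have hlp : l = p := by omega
          unfold exc
          rw [hlp, if_pos hpE, if_pos hpE]
        rw [← cp_exc Φ E X z1 (p + 1) c hnoE, ← Matrix.dotProduct_mulVec,
          ← cp_mul z (Nat.zero_le p) (by omega : p ≤ p + 1),
          ← cp_mul z1 (by omega : p ≤ p + 1) (by omega : p + 1 ≤ c),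
          ← Matrix.mulVec_mulVec, ← Matrix.mulVec_mulVec, hpp,
          cp_exc_congr Φ X z 0 p (E' := E.erase p) (fun l _ hl => by
            rw [Finset.mem_erase]
            exact ⟨fun h => ⟨by omega, h⟩, fun h => h.2⟩)]
      obtain ⟨z2, hz2m, hz2n⟩ := ih p (by omega) (E.erase p)
        (by rw [Finset.card_erase_of_mem hpE]; omega) _ z hz2
      refine ⟨mix p z2 z1, ?_, ?_⟩
      · have := hz2m.mix p hz1m
        have e1 : (s + 1) * N1 (Fintype.card k) (Fintype.card m) (Fintype.card J) +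
          N1 (Fintype.card k) (Fintype.card m) (Fintype.card J) =
          (s + 1 + 1) * N1 (Fintype.card k) (Fintype.card m) (Fintype.card J) := by ring
        rw [e1] at this
        exact this
      · intro h0
        apply hz2n
        rw [← h0]
        refine Finset.sum_congr rfl fun e _ => ?_
        rw [← cp_mul (mix p z2 z1) (Nat.zero_le p) (by omega : p ≤ c),
          ← Matrix.mulVec_mulVec]
        rw [← cp_exc_congr Φ X z2 0 p (E := E) (E' := E.erase p) (fun l _ hl => by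
            rw [Finset.mem_erase]
            exact ⟨fun h => ⟨by omega, h⟩, fun h => h.2⟩)]
        rw [cp_congr (x := mix p z2 z1) (x' := z2) (i := 0) (fun l _ hl => mix_lt _ _ hl),
          cp_congr (x := mix p z2 z1) (x' := z1) (i := p) (fun l hl _ => mix_ge _ _ hl)]
    · push Not at hex
      exact nox _ c hc E (fun l hl => hex l hl) v z hz

end Pool.Agent.W2helper21.FRO
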